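import Mathlib
import Pool.Agent.H4.Thresh

namespace Pool.Agent.Results.MP_0aef5d_co.Counter

open Finset SimpleGraph Pool.Agent.H4

variable {U : Type} (H : SimpleGraph U)

/-- `δ(G) ≥ α |G|`. -/
def MinDeg {V : Type} [Fintype V] (G : SimpleGraph V) (α : ℝ) : Prop :=
  ∀ v, α * Fintype.card V ≤ (G.neighborSet v).ncard

/-- `G` is maximal `H`-free. -/
def MaxFree {V : Type} (G : SimpleGraph V) : Prop :=
  H.Free G ∧ ∀ u v, u ≠ v → ¬G.Adj u v → H ⊑ G ⊔ edge u v

/-- `G` is a blowup of `F`: the fibres of `π` are the nonempty independent classes. -/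
def IsBlowup {V W : Type} (G : SimpleGraph V) (F : SimpleGraph W) : Prop :=
  ∃ π : V → W, Function.Surjective π ∧ ∀ u v, G.Adj u v ↔ F.Adj (π u) (π v)

/-- `VC(G) ≤ C`: every vertex set shattered by the neighbourhoods has at most `C` elements. -/
def VCLe {V : Type} (G : SimpleGraph V) (C : ℕ) : Prop :=
  ∀ S : Finset V, (∀ S' ⊆ (S : Set V), ∃ v, G.neighborSet v ∩ S = S') → S.card ≤ C

/-- The VC-dimension threshold. -/
noncomputable def δVC : ℝ := sInf {α | 0 ≤ α ∧ ∃ C : ℕ, ∀ (V : Type) [Fintype V] (G : SimpleGraph V),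
  MaxFree H G → MinDeg G α → VCLe G C}

/-- The blowup threshold. -/
noncomputable def δB : ℝ := sInf {α | 0 ≤ α ∧ ∃ C : ℕ, ∀ (V : Type) [Fintype V] (G : SimpleGraph V),
  MaxFree H G → MinDeg G α → ∃ m ≤ C, ∃ F : SimpleGraph (Fin m), IsBlowup G F}

theorem result : ∃ H : SimpleGraph (Fin 9), H.Connected ∧ δVC H ≤ 49 / 100 ∧ 1 / 2 ≤ δB H := by
  classical
  refine ⟨Thresh.H, by decide, csInf_le ⟨0, fun _ h => h.1⟩ ⟨by norm_num, 10000,
    fun V _ G ⟨hG, hm⟩ hd S hS => ?_⟩, le_csInf ⟨1, zero_le_one, 0,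
    fun V _ G _ h => ?_⟩ fun α ⟨_, C, h⟩ => ?_⟩
  · by_contra c
    obtain ⟨P, h1, h2⟩ := Thresh.struct hG (fun v => by
      have := hd v
      rw [Thresh.ncard_eq] at this
      exact_mod_cast (by linarith : (49 : ℝ) * Fintype.card V ≤ 100 * G.degree v))
      ((not_le.1 c).le.trans (card_le_univ S))
    set M : V → Prop := fun v => ∃ w, P v = P w ∧ G.Adj v w with hM
    have k : ∀ u v, P u ≠ P v → (G.Adj u v ↔ ¬(M u ∧ M v)) := fun u v h => ⟨fun a ⟨⟨y, b, c⟩, t, d, e⟩ =>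
      h2 _ _ _ _ b d h c e a, fun a => by_contra fun b => by
        have s : ∀ x y, P x = P y → (G ⊔ edge u v).Adj x y → G.Adj x y := by
          rintro x y p (q | q)
          · exact q
          · rcases ((edge_adj _ _ _ _).1 q).1 with ⟨rfl, rfl⟩ | ⟨rfl, rfl⟩
            exacts [absurd p h, absurd p.symm h]
        refine Thresh.tmpl P (fun x y z a b c d => h1 x y z a b (s _ _ a c) (s _ _ b d)) ?_
          (hm u v (fun e => h (e ▸ rfl)) b)
        rintro x y z t p q c d e (f | f)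
        · exact h2 x y z t p q c (s _ _ p d) (s _ _ q e) f
        · rcases ((edge_adj _ _ _ _).1 f).1 with ⟨rfl, rfl⟩ | ⟨rfl, rfl⟩
          exacts [a ⟨⟨y, p, s _ _ p d⟩, t, q, s _ _ q e⟩, a ⟨⟨t, q, s _ _ q e⟩, y, p, s _ _ p d⟩]⟩
    obtain ⟨y, hy⟩ := Fintype.exists_lt_card_fiber_of_mul_lt_card
      (f := fun v : S => (P v, M v)) (n := 2) (by simp; omega)
    obtain ⟨a, ha, b, hb, d, hd, ab, ad, bd⟩ := two_lt_card.1 hy
    simp only [mem_filter, mem_univ, true_and] at ha hb hd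
    obtain ⟨v, hv⟩ := hS {a.1, b.1} (by rintro _ (rfl | rfl) <;> simp)
    have va : G.Adj v a := (hv.ge (show a.1 ∈ _ by simp)).1
    have vb : G.Adj v b := (hv.ge (show b.1 ∈ _ by simp)).1
    have e1 := Prod.ext_iff.1 (ha.trans hb.symm)
    have e2 := Prod.ext_iff.1 (ha.trans hd.symm)
    dsimp only at e1 e2
    by_cases p : P v = P a
    · exact ab (Subtype.ext (h1 _ _ _ p (p.trans e1.1) va vb))
    · rcases hv.le ⟨(k v d (e2.1 ▸ p)).2 (e2.2 ▸ (k v a p).1 va), d.2⟩ with h | h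
      exacts [ad (Subtype.ext h.symm), bd (Subtype.ext h.symm)]
  · have : IsEmpty V := ⟨fun v => by
      have := h v
      rw [Thresh.ncard_eq, one_mul, Nat.cast_le] at this
      exact absurd (G.degree_lt_card_verts v) (not_lt.2 this)⟩
    exact ⟨0, le_rfl, ⊥, isEmptyElim, fun x => x.elim0, isEmptyElim⟩
  · by_contra c
    obtain ⟨V, _, G, h1, h2, h3, h4⟩ := Thresh.lower C
    obtain ⟨m, hm, F, π, -, h⟩ := h V G ⟨h1, h2⟩ fun v => by
      have : (Fintype.card V : ℝ) ≤ 2 * (G.neighborSet v).ncard := by exact_mod_cast h3 v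
      nlinarith [Nat.cast_nonneg (α := ℝ) (Fintype.card V)]
    exact h4 m hm F π h

end Pool.Agent.Results.MP_0aef5d_co.Counter
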